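import Pool.Agent.Q290.SC.Stm

/-! Project SC (helper290), job FIXF (helper13): an element of level `q` which fixes `e_k` can be changed
by an element of `KS q S` such that it fixes `e_k` and `f_k`. -/

set_option autoImplicit false

namespace Pool.Agent.Q13.SC

open Pool.Agent.Q290.SC Pool.Agent.H29R2.MG

theorem fixf : S_FIXF := by
  intro g q S k hk M hM hMS hMk
  -- the coordinates of the basis vectors
  have vfl : ∀ i : Fin g, (vf k : VV g) (Sum.inl i) = 0 := fun i => by simp [vf]
  have vfr : ∀ i : Fin g, i ≠ k → (vf k : VV g) (Sum.inr i) = 0 := fun i hi => by simp [vf, hi]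
  have vfk : (vf k : VV g) (Sum.inr k) = 1 := by simp [vf]
  have vel : ∀ i : Fin g, i ≠ k → (ve k : VV g) (Sum.inl i) = 0 := fun i hi => by simp [ve, hi]
  have ver : ∀ i : Fin g, (ve k : VV g) (Sum.inr i) = 0 := fun i => by simp [ve]
  have vek : (ve k : VV g) (Sum.inl k) = 1 := by simp [ve]
  have hef : om (ve k : VV g) (vf k) = 1 := by rw [om_ve, vfk]
  set u : VV g := ac M (vf k) with hu
  have hu1 : om (ve k) u = 1 := by
    rw [← hMk, hu, om_ac, hef]
  have huS : Sup S u := (sup_vf hk).act hMS
  have hq : ∀ j, q ∣ u j - (vf k : VV g) j := fun j => hM (vf k) j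
  set α : ℤ := u (Sum.inl k) with hα
  have hqα : q ∣ α := by
    have h := hq (Sum.inl k)
    rwa [vfl k, sub_zero] at h
  -- the part of `u` on the other handles, divided by `q`
  let x : VV g := fun j => match j with
    | Sum.inl i => if i = k then 0 else u (Sum.inl i) / q
    | Sum.inr i => if i = k then 0 else u (Sum.inr i) / q
  have xl : ∀ i, x (Sum.inl i) = if i = k then 0 else u (Sum.inl i) / q := fun i => rfl
  have xr : ∀ i, x (Sum.inr i) = if i = k then 0 else u (Sum.inr i) / q := fun i => rfl
  have xkl : x (Sum.inl k) = 0 := by rw [xl, if_pos rfl]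
  have xkr : x (Sum.inr k) = 0 := by rw [xr, if_pos rfl]
  have hxS : Sup S x := by
    intro i hi
    have hik : i ≠ k := fun h => hi (h ▸ hk)
    rw [xl, xr, if_neg hik, if_neg hik, (huS i hi).1, (huS i hi).2]
    simp
  have hux : u = vf k + α • ve k + q • x := by
    refine co_ext fun i => ?_
    simp only [Pi.add_apply, Pi.smul_apply, smul_eq_mul]
    by_cases hik : i = k
    · subst hik
      rw [xkl, xkr, vfl, vfk, vek, ver]
      refine ⟨by ring, ?_⟩
      have h := hu1
      rw [om_ve] at h
      rw [h]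
      ring
    · rw [xl, xr, if_neg hik, if_neg hik, vfl, vfr i hik, vel i hik, ver]
      have h1 := hq (Sum.inl i)
      have h2 := hq (Sum.inr i)
      rw [vfl, sub_zero] at h1
      rw [vfr i hik, sub_zero] at h2
      rw [Int.mul_ediv_cancel' h1, Int.mul_ediv_cancel' h2]
      exact ⟨by ring, by ring⟩
  have hex : om (ve k) x = 0 := by rw [om_ve, xkr]
  have hxe : om x (ve k) = 0 := by rw [om_ve', xkr, neg_zero]
  have hxf : om x (vf k) = 0 := by rw [om_vf', xkl]
  have hxu : om x u = 0 := by
    rw [hux, om_add_right, om_add_right, om_smul_right, om_smul_right, hxf, hxe, om_self]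
    ring
  refine ⟨T (ve k) (-α) * E (ve k) x (-q), ?_, ?_, ?_, ?_⟩
  · exact mul_mem (T_mem (sup_ve hk) ((dvd_neg).2 hqα))
      (E_mem (sup_ve hk) hxS ((dvd_neg).2 (dvd_refl q)))
  · rw [ac_mul, ac_mul, hMk, ac_E hex, om_self, hxe, zero_smul, zero_smul, add_zero, smul_zero,
      add_zero, ac_T, om_self, mul_zero, zero_smul, add_zero]
  · have h1 : ac (E (ve k) x (-q)) u = vf k + α • ve k := by
      rw [ac_E hex, hu1, hxu, one_smul, zero_smul, add_zero]
      conv_lhs => rw [hux]
      rw [neg_smul]
      abel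
    rw [ac_mul, ac_mul, ← hu, h1, ac_T, om_add_right, om_smul_right, om_self, hef]
    rw [mul_zero, add_zero, mul_one, neg_smul]
    abel
  · intro y hy
    refine ⟨-q * om x y, ?_⟩
    have h1 : ac (E (ve k) x (-q)) y = y + (-q * om x y) • ve k := by
      rw [ac_E hex, hy, zero_smul, zero_add, smul_smul]
    rw [ac_mul, h1, ac_T, om_add_right, om_smul_right, om_self, hy]
    simp

end Pool.Agent.Q13.SC
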